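import Pool.Agent.X161.ND.Core2

/-!
# The dual of the 8-vertex neighborly sphere `M` is not a 3-complex

`M` is the neighborly simplicial 3-sphere with the 20 facets
`ABCD, ABCF, ABDF, ACDG, ACFH, ACGH, ADEF, ADEG, AEFH, AEGH, BCDH, BCEF, BCEH, BDFG, BDGH, BEFG,
BEGH, CDGH, CEFH, DEFG` on the vertices `A, ..., H = 0, ..., 7`.  No 3-complex in any `ℝⁿ` is
combinatorially equivalent to the dual cell complex `M*`, whose face poset is the set of nonempty
faces of `M` ordered by reverse inclusion.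
-/

namespace Pool.Agent.Results.MP_a4d28a_co.DualNotThreeComplex

open Module

/-- the nonempty faces of the neighborly 3-sphere `M` on the vertices `0, ..., 7 = A, ..., H` -/
def IsFaceM (s : Finset (Fin 8)) : Prop :=
  s.Nonempty ∧ ∃ F ∈ ({{0,1,2,3}, {0,1,2,5}, {0,1,3,5}, {0,2,3,6}, {0,2,5,7}, {0,2,6,7}, {0,3,4,5},
    {0,3,4,6}, {0,4,5,7}, {0,4,6,7}, {1,2,3,7}, {1,2,4,5}, {1,2,4,7}, {1,3,5,6}, {1,3,6,7},
    {1,4,5,6}, {1,4,6,7}, {2,3,6,7}, {2,4,5,7}, {3,4,5,6}} : Finset (Finset (Fin 8))), s ⊆ F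

/-- A family `𝒞` of (nonempty) convex polytopes of `ℝⁿ` is a `3`-complex: it is finite, each
member is the convex hull of a nonempty finite set, it is closed under taking nonempty (exposed)
faces, any two members that meet do so in a common face, all members have dimension at most `3`
and some member has dimension `3`. -/
structure IsThreeComplex {n : ℕ} (𝒞 : Set (Set (EuclideanSpace ℝ (Fin n)))) : Prop where
  finite : 𝒞.Finite
  polytope : ∀ S ∈ 𝒞, ∃ t : Finset (EuclideanSpace ℝ (Fin n)), t.Nonempty ∧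
    S = convexHull ℝ (t : Set (EuclideanSpace ℝ (Fin n)))
  face : ∀ S ∈ 𝒞, ∀ T : Set (EuclideanSpace ℝ (Fin n)), T.Nonempty → IsExposed ℝ S T → T ∈ 𝒞
  inter : ∀ S ∈ 𝒞, ∀ T ∈ 𝒞, (S ∩ T).Nonempty → IsExposed ℝ S (S ∩ T) ∧ IsExposed ℝ T (S ∩ T)
  dim_le : ∀ S ∈ 𝒞, finrank ℝ (vectorSpan ℝ S) ≤ 3
  dim_eq : ∃ S ∈ 𝒞, finrank ℝ (vectorSpan ℝ S) = 3

open Pool.Agent.X161.ND

theorem isFace_iff (s : Finset (Fin 8)) : IsFaceM s ↔ s.Nonempty ∧ ∃ G : Fin 20, s ⊆ facets G := by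
  refine and_congr_right fun _ => ⟨?_, ?_⟩
  · rintro ⟨F, hF, hs⟩
    simp only [Finset.mem_insert, Finset.mem_singleton] at hF
    have : ∃ G : Fin 20, F = facets G := by
      rcases hF with h | h | h | h | h | h | h | h | h | h | h | h | h | h | h | h | h | h | h | h
      · exact ⟨0, h⟩
      · exact ⟨1, h⟩
      · exact ⟨2, h⟩
      · exact ⟨3, h⟩
      · exact ⟨4, h⟩
      · exact ⟨5, h⟩
      · exact ⟨6, h⟩
      · exact ⟨7, h⟩
      · exact ⟨8, h⟩
      · exact ⟨9, h⟩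
      · exact ⟨10, h⟩
      · exact ⟨11, h⟩
      · exact ⟨12, h⟩
      · exact ⟨13, h⟩
      · exact ⟨14, h⟩
      · exact ⟨15, h⟩
      · exact ⟨16, h⟩
      · exact ⟨17, h⟩
      · exact ⟨18, h⟩
      · exact ⟨19, h⟩
    obtain ⟨G, rfl⟩ := this
    exact ⟨G, hs⟩
  · rintro ⟨G, hG⟩
    refine ⟨facets G, ?_, hG⟩
    clear hG
    revert G
    decide

section

variable {n : ℕ} {𝒞 : Set (Set (EuclideanSpace ℝ (Fin n)))}

theorem exposed_point {S : Set (EuclideanSpace ℝ (Fin n))} (hS : IsCompact S)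
    (hne : S.Nonempty) : ∃ p ∈ S, IsExposed ℝ S {p} := by
  obtain ⟨p, hp, hmax⟩ := hS.exists_isMaxOn hne (continuous_norm.continuousOn)
  refine ⟨p, hp, fun _ => ⟨innerSL ℝ p, ?_⟩⟩
  ext x
  simp only [Set.mem_singleton_iff, Set.mem_ofPred_eq, innerSL_apply_apply]
  constructor
  · rintro rfl
    refine ⟨hp, fun y hy => ?_⟩
    have h1 : ‖y‖ ≤ ‖x‖ := hmax hy
    by_cases hyx : y - x = 0
    · rw [sub_eq_zero.1 hyx]
    · have := inner_neg_aux h1 hyx
      rw [inner_sub_right] at this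
      linarith
  · rintro ⟨hx, h⟩
    by_contra hne'
    have h1 : ‖x‖ ≤ ‖p‖ := hmax hx
    have := inner_neg_aux h1 (sub_ne_zero.2 hne')
    rw [inner_sub_right] at this
    have := h p hp
    linarith

/-- the data extracted from an equivalence -/
theorem mkData (h𝒞 : IsThreeComplex 𝒞) (g : Finset (Fin 8) → Set (EuclideanSpace ℝ (Fin n)))
    (g1 : ∀ s, IsFaceM s → g s ∈ 𝒞)
    (g2 : ∀ s t, IsFaceM s → IsFaceM t → (g t ⊆ g s ↔ s ⊆ t))
    (g3 : ∀ T ∈ 𝒞, ∃ s, IsFaceM s ∧ T = g s) : Nonempty (Data (EuclideanSpace ℝ (Fin n))) := by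
  have hfac : ∀ G, IsFaceM (facets G) := fun G =>
    (isFace_iff _).2 ⟨by revert G; decide, G, subset_rfl⟩
  have hsing : ∀ A, IsFaceM {A} := fun A => by
    obtain ⟨G, hG⟩ := ex_facet A
    exact (isFace_iff _).2 ⟨Finset.singleton_nonempty A, G, Finset.singleton_subset_iff.2 hG⟩
  have hpair : ∀ A B, IsFaceM {A, B} := fun A B => by
    obtain ⟨G, hA, hB⟩ := pair_lem A B
    exact (isFace_iff _).2 ⟨Finset.insert_nonempty _ _, G,
      Finset.insert_subset hA (Finset.singleton_subset_iff.2 hB)⟩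
  have hconv : ∀ s, IsFaceM s → Convex ℝ (g s) := fun s hs => by
    obtain ⟨t, -, ht⟩ := h𝒞.polytope _ (g1 s hs)
    rw [ht]; exact convex_convexHull ℝ _
  have hpt : ∀ G, ∃ p, g (facets G) = {p} := by
    intro G
    obtain ⟨t, htn, ht⟩ := h𝒞.polytope _ (g1 _ (hfac G))
    have hcomp : IsCompact (g (facets G)) := by
      rw [ht]; exact Set.Finite.isCompact_convexHull (𝕜 := ℝ) (Finset.finite_toSet t)
    have hne : (g (facets G)).Nonempty := by
      rw [ht]; exact (convexHull_nonempty_iff).2 htn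
    obtain ⟨p, hp, hexp⟩ := exposed_point hcomp hne
    obtain ⟨s, hs, hps⟩ := g3 _ (h𝒞.face _ (g1 _ (hfac G)) {p} (Set.singleton_nonempty p) hexp)
    refine ⟨p, ?_⟩
    have h1 : g s ⊆ g (facets G) := by rw [← hps]; exact Set.singleton_subset_iff.2 hp
    have h2 := (g2 _ _ (hfac G) hs).1 h1
    have h3 := max_lem s ((isFace_iff s).1 hs).2 G h2
    rw [← h3, hps]
  choose p hp using hpt
  have hmem : ∀ s, IsFaceM s → ∀ G, p G ∈ g s ↔ s ⊆ facets G := by
    intro s hs G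
    rw [← Set.singleton_subset_iff, ← hp G]
    exact g2 _ _ hs (hfac G)
  have hpairsub : ∀ A B, g {A, B} ⊆ g {A} := fun A B =>
    (g2 _ _ (hsing A) (hpair A B)).2 (by simp)
  have hpne : ∀ A B, (g {A, B}).Nonempty := fun A B => by
    obtain ⟨G, hA, hB⟩ := pair_lem A B
    exact ⟨p G, (hmem _ (hpair A B) G).2
      (Finset.insert_subset hA (Finset.singleton_subset_iff.2 hB))⟩
  have hinter : ∀ A B, g {A} ∩ g {B} = g {A, B} := by
    intro A B
    have hsup : g {A, B} ⊆ g {A} ∩ g {B} :=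
      Set.subset_inter (hpairsub A B) (by rw [Finset.pair_comm]; exact hpairsub B A)
    refine Set.Subset.antisymm ?_ hsup
    have hne : (g {A} ∩ g {B}).Nonempty := (hpne A B).mono hsup
    obtain ⟨u, hu, hgu⟩ := g3 _ (h𝒞.face _ (g1 _ (hsing A)) _ hne
      (h𝒞.inter _ (g1 _ (hsing A)) _ (g1 _ (hsing B)) hne).1)
    have hA : A ∈ u := Finset.singleton_subset_iff.1
      ((g2 _ _ (hsing A) hu).1 (by rw [← hgu]; exact Set.inter_subset_left))
    have hB : B ∈ u := Finset.singleton_subset_iff.1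
      ((g2 _ _ (hsing B) hu).1 (by rw [← hgu]; exact Set.inter_subset_right))
    rw [hgu]
    exact (g2 _ _ (hpair A B) hu).2 (Finset.insert_subset hA (Finset.singleton_subset_iff.2 hB))
  have hfun : ∀ A B, ∃ (l : EuclideanSpace ℝ (Fin n) →ₗ[ℝ] ℝ) (m : ℝ), ∀ x ∈ g {A},
      l x ≤ m ∧ (x ∈ g {A, B} ↔ l x = m) := by
    intro A B
    have hne : (g {A} ∩ g {B}).Nonempty := by rw [hinter]; exact hpne A B
    have hexp := (h𝒞.inter _ (g1 _ (hsing A)) _ (g1 _ (hsing B)) hne).1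
    rw [hinter] at hexp
    obtain ⟨l, hl⟩ := hexp (hpne A B)
    obtain ⟨x0, hx0⟩ := hpne A B
    have hx0' := hx0
    rw [hl] at hx0'
    refine ⟨(l : EuclideanSpace ℝ (Fin n) →ₗ[ℝ] ℝ), l x0, fun x hx => ⟨hx0'.2 x hx, ?_, ?_⟩⟩
    · intro h
      rw [hl] at h
      exact le_antisymm (hx0'.2 x hx) (h.2 x0 hx0'.1)
    · intro h
      rw [hl]
      refine ⟨hx, fun y hy => ?_⟩
      have h' : l x = l x0 := h
      rw [h']
      exact hx0'.2 y hy
  choose l m hlm using hfun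
  have hconvsub : ∀ A, convexHull ℝ {x | ∃ G, A ∈ facets G ∧ x = p G} ⊆ g {A} := by
    intro A
    refine convexHull_min ?_ (hconv _ (hsing A))
    rintro x ⟨G, hG, rfl⟩
    exact (hmem _ (hsing A) G).2 (Finset.singleton_subset_iff.2 hG)
  have hmA : ∀ A G, A ∈ facets G → p G ∈ g {A} := fun A G hG =>
    (hmem _ (hsing A) G).2 (Finset.singleton_subset_iff.2 hG)
  refine ⟨⟨p, fun A => vectorSpan ℝ (g {A}), l, m, ?_, ?_, ?_, ?_, ?_⟩⟩
  · exact fun A => h𝒞.dim_le _ (g1 _ (hsing A))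
  · intro A G G' hG hG'
    exact vsub_mem_vectorSpan ℝ (hmA A G' hG') (hmA A G hG)
  · intro A B _ G hA hB
    exact ((hlm A B _ (hmA A G hA)).2).1 ((hmem _ (hpair A B) G).2
      (Finset.insert_subset hA (Finset.singleton_subset_iff.2 hB)))
  · intro A B _ G hA hB
    refine lt_of_le_of_ne (hlm A B _ (hmA A G hA)).1 fun h => hB ?_
    have := (hmem _ (hpair A B) G).1 (((hlm A B _ (hmA A G hA)).2).2 h)
    exact this (by simp)
  · intro A B _ z hzA hzB
    have h1 : z ∈ g {B} ∩ g {A} := ⟨hconvsub B hzB, hconvsub A hzA⟩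
    rw [hinter] at h1
    exact ((hlm B A _ (hconvsub B hzB)).2).1 h1

end

/-- **MP_a4d28a_co, Q1.** The dual cell complex of `M` is not a 3-complex: no 3-complex in any
`ℝⁿ` is combinatorially equivalent to it. -/
theorem result (n : ℕ) (𝒞 : Set (Set (EuclideanSpace ℝ (Fin n)))) (h𝒞 : IsThreeComplex 𝒞) :
    IsEmpty ({s : Finset (Fin 8) // IsFaceM s}ᵒᵈ ≃o 𝒞) := by
  classical
  refine ⟨fun Φ => ?_⟩
  obtain ⟨d⟩ := mkData h𝒞
    (fun s => if h : IsFaceM s then (Φ (OrderDual.toDual ⟨s, h⟩) : Set (EuclideanSpace ℝ (Fin n)))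
      else ∅)
    (by
      intro s hs
      simp only [dif_pos hs]
      exact (Φ (OrderDual.toDual ⟨s, hs⟩)).2)
    (by
      intro s t hs ht
      simp only [dif_pos hs, dif_pos ht]
      have := Φ.le_iff_le (x := OrderDual.toDual ⟨t, ht⟩) (y := OrderDual.toDual ⟨s, hs⟩)
      rw [OrderDual.toDual_le_toDual] at this
      exact this)
    (by
      intro T hT
      obtain ⟨s, hs⟩ := Φ.surjective ⟨T, hT⟩
      refine ⟨(OrderDual.ofDual s).1, (OrderDual.ofDual s).2, ?_⟩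
      simp only [dif_pos (OrderDual.ofDual s).2]
      have : Φ (OrderDual.toDual ⟨(OrderDual.ofDual s).1, (OrderDual.ofDual s).2⟩) = ⟨T, hT⟩ := hs
      rw [this])
  exact d.absurd'

end Pool.Agent.Results.MP_a4d28a_co.DualNotThreeComplex
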